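import Mathlib

/-!
# The class and the criterion are primitive recursive (helper486)
-/

set_option autoImplicit false

namespace Pool.Agent.R486.TC

/-- the class: `D` cube-free, prime to `3`, not `±1` modulo `9`, exactly one prime factor
congruent to `2` modulo `3` -/
def Class (D : ℕ) : Prop :=
  D ≠ 0 ∧ (∀ p : ℕ, p.Prime → ¬ p ^ 3 ∣ D) ∧ ¬ 3 ∣ D ∧ D % 9 ≠ 1 ∧ D % 9 ≠ 8 ∧
    ∃ q : ℕ, q.Prime ∧ q % 3 = 2 ∧ q ∣ D ∧ ∀ p : ℕ, p.Prime → p ∣ D → p ≠ q → p % 3 = 1

/-- `D` is not a product `d₀ d₁ d₂` of coprime factors, at least two of them different from `1`,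
such that `d₁ d₂²`, `d₂ d₀²`, `d₀ d₁²` are cubes modulo the primes dividing `d₀`, `d₁`, `d₂` -/
def NoSplit (D : ℕ) : Prop :=
  ∀ d : ZMod 3 → ℕ, ∏ c, d c = D → (∀ c c', c ≠ c' → Nat.Coprime (d c) (d c')) →
    (∀ (c : ZMod 3) (p : ℕ), p.Prime → p ∣ d c →
      ∃ x : ℤ, (p : ℤ) ∣ (d (c + 1) : ℤ) * (d (c + 2) : ℤ) ^ 2 - x ^ 3) →
    ∃ c, ∀ c', c' ≠ c → d c' = 1

/-- the cube-free part of `N` is in the class and does not split -/
def Good (N : ℕ) : Prop := ∃ D n : ℕ, N = D * n ^ 3 ∧ n ≠ 0 ∧ Class D ∧ NoSplit D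

section Combinators

variable {α : Type} [Primcodable α]

theorem ball {f : α → ℕ} (hf : Primrec f) {R : ℕ → α → Prop} (hR : PrimrecRel R) :
    PrimrecPred (fun a => ∀ x < f a, R x a) :=
  (hR.forall_mem_list.comp (Primrec.list_range.comp hf) Primrec.id).of_eq (by simp)

theorem bex {f : α → ℕ} (hf : Primrec f) {R : ℕ → α → Prop} (hR : PrimrecRel R) :
    PrimrecPred (fun a => ∃ x < f a, R x a) :=
  (hR.exists_mem_list.comp (Primrec.list_range.comp hf) Primrec.id).of_eq (by simp)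

theorem imp {p q : α → Prop} (hp : PrimrecPred p) (hq : PrimrecPred q) :
    PrimrecPred (fun a => p a → q a) :=
  (hp.not.or hq).of_eq (fun a => by tauto)

theorem pdvd {f g : α → ℕ} (hf : Primrec f) (hg : Primrec g) :
    PrimrecPred (fun a => f a ∣ g a) :=
  (Primrec.eq.comp (Primrec.nat_mod.comp hg hf) (Primrec.const 0)).of_eq
    (fun a => (Nat.dvd_iff_mod_eq_zero).symm)

theorem peq {f g : α → ℕ} (hf : Primrec f) (hg : Primrec g) :
    PrimrecPred (fun a => f a = g a) := Primrec.eq.comp hf hg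

theorem pne {f g : α → ℕ} (hf : Primrec f) (hg : Primrec g) :
    PrimrecPred (fun a => f a ≠ g a) := (peq hf hg).not

theorem pmul {f g : α → ℕ} (hf : Primrec f) (hg : Primrec g) :
    Primrec (fun a => f a * g a) := Primrec.nat_mul.comp hf hg

theorem pcube {f : α → ℕ} (hf : Primrec f) : Primrec (fun a => f a ^ 3) :=
  (pmul (pmul hf hf) hf).of_eq (fun a => by ring)

theorem psq {f : α → ℕ} (hf : Primrec f) : Primrec (fun a => f a ^ 2) :=
  (pmul hf hf).of_eq (fun a => by ring)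

theorem pmod {f g : α → ℕ} (hf : Primrec f) (hg : Primrec g) :
    Primrec (fun a => f a % g a) := Primrec.nat_mod.comp hf hg

theorem pprime {f : α → ℕ} (hf : Primrec f) : PrimrecPred (fun a => (f a).Prime) := by
  have h : PrimrecPred (fun p : ℕ => 2 ≤ p ∧ ∀ m < p, (2 ≤ m → ¬ m ∣ p)) := by
    refine (Primrec.nat_le.comp (Primrec.const 2) Primrec.id).and (ball Primrec.id ?_)
    exact imp (Primrec.nat_le.comp (Primrec.const 2) Primrec.fst)
      (pdvd Primrec.fst Primrec.snd).not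
  refine (h.comp hf).of_eq (fun a => ?_)
  rw [Nat.prime_def_lt']
  constructor
  · rintro ⟨h1, h2⟩
    exact ⟨h1, fun m h3 h4 => h2 m h4 h3⟩
  · rintro ⟨h1, h2⟩
    exact ⟨h1, fun m h3 h4 => h2 m h4 h3⟩

theorem pcoprime {f g : α → ℕ} (hf : Primrec f) (hg : Primrec g) :
    PrimrecPred (fun a => ∀ p < f a + g a + 1, p.Prime → ¬ (p ∣ f a ∧ p ∣ g a)) := by
  refine ball (Primrec.succ.comp (Primrec.nat_add.comp hf hg)) ?_
  exact imp (pprime Primrec.fst) ((pdvd Primrec.fst (hf.comp Primrec.snd)).and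
    (pdvd Primrec.fst (hg.comp Primrec.snd))).not

end Combinators

/-- the class with bounded quantifiers -/
def ClassB (D : ℕ) : Prop :=
  D ≠ 0 ∧ (∀ p < D + 1, (p.Prime → ¬ p ^ 3 ∣ D)) ∧ ¬ 3 ∣ D ∧ D % 9 ≠ 1 ∧ D % 9 ≠ 8 ∧
    ∃ q < D + 1, (q.Prime ∧ q % 3 = 2 ∧ q ∣ D ∧
      ∀ p < D + 1, (p.Prime → p ∣ D → p ≠ q → p % 3 = 1))

theorem classB_iff (D : ℕ) : ClassB D ↔ Class D := by
  unfold ClassB Class
  constructor
  · rintro ⟨h1, h2, h3, h4, h5, q, hq, h6, h7, h8, h9⟩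
    refine ⟨h1, fun p hp hd => ?_, h3, h4, h5, q, h6, h7, h8, fun p hp hd => ?_⟩
    · exact h2 p (Nat.lt_succ_of_le (Nat.le_of_dvd (Nat.pos_of_ne_zero h1)
        ((dvd_pow_self p (by norm_num)).trans hd))) hp hd
    · exact h9 p (Nat.lt_succ_of_le (Nat.le_of_dvd (Nat.pos_of_ne_zero h1) hd)) hp hd
  · rintro ⟨h1, h2, h3, h4, h5, q, h6, h7, h8, h9⟩
    exact ⟨h1, fun p _ hp => h2 p hp, h3, h4, h5, q,
      Nat.lt_succ_of_le (Nat.le_of_dvd (Nat.pos_of_ne_zero h1) h8), h6, h7, h8,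
      fun p _ => h9 p⟩

theorem pclass : PrimrecPred Class := by
  refine PrimrecPred.of_eq (p := ClassB) ?_ classB_iff
  have hid : Primrec (fun D : ℕ => D) := Primrec.id
  refine (pne hid (Primrec.const 0)).and ((ball (Primrec.succ.comp hid) ?_).and
    ((pdvd (Primrec.const 3) hid).not.and ((pne (pmod hid (Primrec.const 9)) (Primrec.const 1)).and
    ((pne (pmod hid (Primrec.const 9)) (Primrec.const 8)).and
      (bex (Primrec.succ.comp hid) ?_)))))
  · exact imp (pprime Primrec.fst) (pdvd (pcube Primrec.fst) Primrec.snd).not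
  · refine (pprime Primrec.fst).and ((peq (pmod Primrec.fst (Primrec.const 3))
      (Primrec.const 2)).and ((pdvd Primrec.fst Primrec.snd).and ?_))
    refine ball (f := fun a : ℕ × ℕ => a.2 + 1) (Primrec.succ.comp Primrec.snd) ?_
    have h1 : Primrec (fun a : ℕ × (ℕ × ℕ) => a.1) := Primrec.fst
    have h2 : Primrec (fun a : ℕ × (ℕ × ℕ) => a.2.2) := Primrec.snd.comp Primrec.snd
    have h3 : Primrec (fun a : ℕ × (ℕ × ℕ) => a.2.1) := Primrec.fst.comp Primrec.snd
    exact imp (pprime h1) (imp (pdvd h1 h2) (imp (pne h1 h3)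
      (peq (pmod h1 (Primrec.const 3)) (Primrec.const 1))))

/-- cubes modulo the primes dividing `a`, bounded form -/
def CubB (a b c : ℕ) : Prop :=
  ∀ p < a + 1, (p.Prime → p ∣ a → ∃ x < p, (b * c ^ 2) % p = x ^ 3 % p)

theorem cub_iff {a b c : ℕ} (ha : a ≠ 0) : CubB a b c ↔
    ∀ p : ℕ, p.Prime → p ∣ a → ∃ x : ℤ, (p : ℤ) ∣ (b : ℤ) * (c : ℤ) ^ 2 - x ^ 3 := by
  unfold CubB
  constructor
  · intro h p hp hd
    obtain ⟨x, -, hx⟩ := h p (Nat.lt_succ_of_le (Nat.le_of_dvd (Nat.pos_of_ne_zero ha) hd)) hp hd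
    refine ⟨x, ?_⟩
    have h1 : (x ^ 3) ≡ (b * c ^ 2) [MOD p] := hx.symm
    have h2 := (Nat.modEq_iff_dvd).1 h1
    push_cast at h2
    exact h2
  · intro h p _ hp hd
    obtain ⟨x, hx⟩ := h p hp hd
    have hp0 : (0 : ℤ) < p := by exact_mod_cast hp.pos
    refine ⟨(x % p).toNat, ?_, ?_⟩
    · have h1 : x % p < p := Int.emod_lt_of_pos x hp0
      have h0 : 0 ≤ x % p := Int.emod_nonneg x hp0.ne'
      omega
    · have h0 : 0 ≤ x % p := Int.emod_nonneg x hp0.ne'
      have h3 : (((x % p).toNat : ℕ) : ℤ) = x % p := Int.toNat_of_nonneg h0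
      have h4 : ((x % p).toNat ^ 3) ≡ (b * c ^ 2) [MOD p] := by
        rw [Nat.modEq_iff_dvd]
        push_cast
        rw [h3]
        have h5 : (p : ℤ) ∣ x ^ 3 - (x % p) ^ 3 := by
          have h6 : (p : ℤ) ∣ x - x % p := Int.dvd_self_sub_emod
          exact h6.trans (sub_dvd_pow_sub_pow _ _ 3)
        have h7 : (b : ℤ) * (c : ℤ) ^ 2 - (x % p) ^ 3 =
            ((b : ℤ) * (c : ℤ) ^ 2 - x ^ 3) + (x ^ 3 - (x % p) ^ 3) := by ring
        rw [h7]
        exact dvd_add hx h5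
      exact h4.symm

/-- the criterion with bounded quantifiers -/
def NoSplitB (D : ℕ) : Prop :=
  ∀ a < D + 1, ∀ b < D + 1, ∀ c < D + 1, (a * b * c = D →
    (∀ p < a + b + 1, p.Prime → ¬ (p ∣ a ∧ p ∣ b)) →
    (∀ p < b + c + 1, p.Prime → ¬ (p ∣ b ∧ p ∣ c)) →
    (∀ p < a + c + 1, p.Prime → ¬ (p ∣ a ∧ p ∣ c)) →
    CubB a b c → CubB b c a → CubB c a b →
    ((b = 1 ∧ c = 1) ∨ (a = 1 ∧ c = 1) ∨ (a = 1 ∧ b = 1)))

theorem cop_iff {a b : ℕ} (ha : a ≠ 0) :
    (∀ p < a + b + 1, p.Prime → ¬ (p ∣ a ∧ p ∣ b)) ↔ Nat.Coprime a b := by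
  constructor
  · intro h
    refine Nat.Coprime.symm (Nat.coprime_of_dvd fun p hp h1 h2 => ?_) |>.symm
    exact h p (by have := Nat.le_of_dvd (Nat.pos_of_ne_zero ha) h1; omega) hp ⟨h1, h2⟩
  · intro h p _ hp ⟨h1, h2⟩
    have := Nat.dvd_gcd h1 h2
    rw [h] at this
    exact hp.one_lt.ne' (Nat.dvd_one.1 this)

theorem noSplitB_iff {D : ℕ} (hD : D ≠ 0) : NoSplitB D ↔ NoSplit D := by
  constructor
  · intro h d hprod hcop hcub
    have e : ∏ c, d c = d 0 * d 1 * d 2 := by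
      have : (Finset.univ : Finset (ZMod 3)) = {0, 1, 2} := by decide
      rw [this, Finset.prod_insert (by decide), Finset.prod_insert (by decide),
        Finset.prod_singleton, mul_assoc]
    have hne : ∀ c, d c ≠ 0 := by
      intro c h0
      apply hD
      rw [← hprod]
      exact Finset.prod_eq_zero (Finset.mem_univ c) h0
    have hle : ∀ c, d c < D + 1 := by
      intro c
      have : d c ∣ D := by rw [← hprod]; exact Finset.dvd_prod_of_mem d (Finset.mem_univ c)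
      exact Nat.lt_succ_of_le (Nat.le_of_dvd (Nat.pos_of_ne_zero hD) this)
    have h1 := h (d 0) (hle 0) (d 1) (hle 1) (d 2) (hle 2) (by rw [← e]; exact hprod)
      ((cop_iff (hne 0)).2 (hcop 0 1 (by decide))) ((cop_iff (hne 1)).2 (hcop 1 2 (by decide)))
      ((cop_iff (hne 0)).2 (hcop 0 2 (by decide)))
      ((cub_iff (hne 0)).2 (fun p hp hd => hcub 0 p hp hd))
      ((cub_iff (hne 1)).2 (fun p hp hd => hcub 1 p hp hd))
      ((cub_iff (hne 2)).2 (fun p hp hd => hcub 2 p hp hd))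
    rcases h1 with ⟨h2, h3⟩ | ⟨h2, h3⟩ | ⟨h2, h3⟩
    · refine ⟨0, fun c hc => ?_⟩
      fin_cases c
      · exact absurd rfl hc
      · exact h2
      · exact h3
    · refine ⟨1, fun c hc => ?_⟩
      fin_cases c
      · exact h2
      · exact absurd rfl hc
      · exact h3
    · refine ⟨2, fun c hc => ?_⟩
      fin_cases c
      · exact h2
      · exact h3
      · exact absurd rfl hc
  · intro h a _ b _ c _ habc h1 h2 h3 h4 h5 h6
    have ha : a ≠ 0 := by rintro rfl; apply hD; rw [← habc]; ring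
    have hb : b ≠ 0 := by rintro rfl; apply hD; rw [← habc]; ring
    have hc : c ≠ 0 := by rintro rfl; apply hD; rw [← habc]; ring
    have c1 := (cop_iff ha).1 h1
    have c2 := (cop_iff hb).1 h2
    have c3 := (cop_iff ha).1 h3
    let d : ZMod 3 → ℕ := ![a, b, c]
    have e : ∏ c, d c = d 0 * d 1 * d 2 := by
      have : (Finset.univ : Finset (ZMod 3)) = {0, 1, 2} := by decide
      rw [this, Finset.prod_insert (by decide), Finset.prod_insert (by decide),
        Finset.prod_singleton, mul_assoc]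
    obtain ⟨i, hi⟩ := h d (by rw [e]; exact habc) (by
      intro i j hij
      fin_cases i <;> fin_cases j
      · exact absurd rfl hij
      · exact c1
      · exact c3
      · exact c1.symm
      · exact absurd rfl hij
      · exact c2
      · exact c3.symm
      · exact c2.symm
      · exact absurd rfl hij) (by
      intro i p hp hd
      fin_cases i
      · exact (cub_iff ha).1 h4 p hp hd
      · exact (cub_iff hb).1 h5 p hp hd
      · exact (cub_iff hc).1 h6 p hp hd)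
    rcases (by decide : ∀ i : ZMod 3, i = 0 ∨ i = 1 ∨ i = 2) i with rfl | rfl | rfl
    · exact Or.inl ⟨hi 1 (by decide), hi 2 (by decide)⟩
    · exact Or.inr (Or.inl ⟨hi 0 (by decide), hi 2 (by decide)⟩)
    · exact Or.inr (Or.inr ⟨hi 0 (by decide), hi 1 (by decide)⟩)

theorem pcub {α : Type} [Primcodable α] {f g h : α → ℕ} (hf : Primrec f) (hg : Primrec g)
    (hh : Primrec h) : PrimrecPred (fun a => CubB (f a) (g a) (h a)) := by
  unfold CubB
  refine ball (f := fun a => f a + 1) (Primrec.succ.comp hf) ?_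
  have h1 : Primrec (fun a : ℕ × α => a.1) := Primrec.fst
  refine imp (pprime h1) (imp (pdvd h1 (hf.comp Primrec.snd)) ?_)
  refine bex (f := fun a : ℕ × α => a.1) h1 ?_
  have h2 : Primrec (fun a : ℕ × (ℕ × α) => a.1) := Primrec.fst
  have h3 : Primrec (fun a : ℕ × (ℕ × α) => a.2.1) := Primrec.fst.comp Primrec.snd
  have h4 : Primrec (fun a : ℕ × (ℕ × α) => a.2.2) := Primrec.snd.comp Primrec.snd
  exact peq (pmod (pmul (hg.comp h4) (psq (hh.comp h4))) h3) (pmod (pcube h2) h3)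

theorem pnosplit : PrimrecPred NoSplitB := by
  unfold NoSplitB
  refine ball (f := fun D : ℕ => D + 1) Primrec.succ ?_
  refine ball (f := fun a : ℕ × ℕ => a.2 + 1) (Primrec.succ.comp Primrec.snd) ?_
  refine ball (f := fun a : ℕ × (ℕ × ℕ) => a.2.2 + 1)
    (Primrec.succ.comp (Primrec.snd.comp Primrec.snd)) ?_
  have hc : Primrec (fun a : ℕ × (ℕ × (ℕ × ℕ)) => a.1) := Primrec.fst
  have hb : Primrec (fun a : ℕ × (ℕ × (ℕ × ℕ)) => a.2.1) := Primrec.fst.comp Primrec.snd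
  have ha : Primrec (fun a : ℕ × (ℕ × (ℕ × ℕ)) => a.2.2.1) :=
    Primrec.fst.comp (Primrec.snd.comp Primrec.snd)
  have hD : Primrec (fun a : ℕ × (ℕ × (ℕ × ℕ)) => a.2.2.2) :=
    Primrec.snd.comp (Primrec.snd.comp Primrec.snd)
  have h1 : ∀ {f : ℕ × (ℕ × (ℕ × ℕ)) → ℕ}, Primrec f → PrimrecPred (fun a => f a = 1) :=
    fun hf => peq hf (Primrec.const 1)
  exact imp (peq (pmul (pmul ha hb) hc) hD) (imp (pcoprime ha hb) (imp (pcoprime hb hc)
    (imp (pcoprime ha hc) (imp (pcub ha hb hc) (imp (pcub hb hc ha) (imp (pcub hc ha hb)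
    (((h1 hb).and (h1 hc)).or (((h1 ha).and (h1 hc)).or ((h1 ha).and (h1 hb))))))))))

theorem pgood : PrimrecPred (fun N : ℕ => ∃ D < N + 1, ∃ n < N + 1,
    (N = D * n ^ 3 ∧ n ≠ 0 ∧ Class D ∧ NoSplitB D)) := by
  refine bex (f := fun D : ℕ => D + 1) Primrec.succ ?_
  refine bex (f := fun a : ℕ × ℕ => a.2 + 1) (Primrec.succ.comp Primrec.snd) ?_
  have hn : Primrec (fun a : ℕ × (ℕ × ℕ) => a.1) := Primrec.fst
  have hD : Primrec (fun a : ℕ × (ℕ × ℕ) => a.2.1) := Primrec.fst.comp Primrec.snd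
  have hN : Primrec (fun a : ℕ × (ℕ × ℕ) => a.2.2) := Primrec.snd.comp Primrec.snd
  exact (peq hN (pmul hD (pcube hn))).and ((pne hn (Primrec.const 0)).and
    ((pclass.comp hD).and (pnosplit.comp hD)))

/-- The criterion is primitive recursive. -/
theorem good_primrec : PrimrecPred Good := by
  refine pgood.of_eq (fun N => ?_)
  unfold Good
  constructor
  · rintro ⟨D, -, n, -, h1, h2, h3, h4⟩
    exact ⟨D, n, h1, h2, h3, (noSplitB_iff h3.1).1 h4⟩
  · rintro ⟨D, n, h1, h2, h3, h4⟩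
    have hD : 1 ≤ D := Nat.one_le_iff_ne_zero.2 h3.1
    have hn : 1 ≤ n := Nat.one_le_iff_ne_zero.2 h2
    have e1 : 1 ≤ n ^ 3 := Nat.one_le_pow _ _ hn
    have e2 : n ≤ n ^ 3 := Nat.le_self_pow (by norm_num) n
    refine ⟨D, ?_, n, ?_, h1, h2, h3, (noSplitB_iff h3.1).2 h4⟩
    · rw [h1]; nlinarith
    · rw [h1]; nlinarith

theorem good_computable : ComputablePred Good := good_primrec.computablePred

end Pool.Agent.R486.TC
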