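import Mathlib

/-!
# From cube-free numbers to all numbers: proportions (helper486)
-/

set_option autoImplicit false

open scoped Classical
open Finset Filter

namespace Pool.Agent.R486.TC

/-- uniqueness of the cube-free part -/
theorem cf_unique {D D' n n' : ℕ} (hD : D ≠ 0) (hD' : D' ≠ 0) (hn : n ≠ 0) (hn' : n' ≠ 0)
    (h : ∀ p : ℕ, p.Prime → ¬ p ^ 3 ∣ D) (h' : ∀ p : ℕ, p.Prime → ¬ p ^ 3 ∣ D')
    (e : D * n ^ 3 = D' * n' ^ 3) : D = D' ∧ n = n' := by
  have key : n = n' := by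
    refine Nat.eq_of_factorization_eq hn hn' (fun p => ?_)
    by_cases hp : p.Prime
    · have e1 : (D * n ^ 3).factorization p = (D' * n' ^ 3).factorization p := by rw [e]
      rw [Nat.factorization_mul hD (pow_ne_zero 3 hn), Nat.factorization_mul hD'
        (pow_ne_zero 3 hn'), Nat.factorization_pow, Nat.factorization_pow] at e1
      simp only [Finsupp.add_apply, Finsupp.smul_apply, smul_eq_mul] at e1
      have h1 : D.factorization p < 3 := by
        by_contra hcon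
        exact h p hp ((hp.pow_dvd_iff_le_factorization hD).2 (by omega))
      have h2 : D'.factorization p < 3 := by
        by_contra hcon
        exact h' p hp ((hp.pow_dvd_iff_le_factorization hD').2 (by omega))
      omega
    · rw [Nat.factorization_eq_zero_of_not_prime _ hp, Nat.factorization_eq_zero_of_not_prime _ hp]
  refine ⟨?_, key⟩
  rw [key] at e
  exact Nat.eq_of_mul_eq_mul_right (by positivity) e

/-- the numbers whose cube-free part satisfies `P` -/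
def Ext (P : ℕ → Prop) (N : ℕ) : Prop := ∃ D n : ℕ, N = D * n ^ 3 ∧ n ≠ 0 ∧ P D

/-- the counting function -/
noncomputable def cnt (P : ℕ → Prop) (X : ℕ) : ℕ := ((Icc 1 X).filter fun D => P D).card

theorem cnt_ext {P : ℕ → Prop} (hP : ∀ D, P D → D ≠ 0 ∧ ∀ p : ℕ, p.Prime → ¬ p ^ 3 ∣ D)
    (X : ℕ) : cnt (Ext P) X = ∑ n ∈ Icc 1 X, cnt P (X / n ^ 3) := by
  unfold cnt
  rw [← card_sigma]
  symm
  refine card_bij (fun (s : (_ : ℕ) × ℕ) _ => s.2 * s.1 ^ 3) ?_ ?_ ?_
  · rintro ⟨n, D⟩ h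
    simp only [mem_sigma, mem_Icc, mem_filter] at h ⊢
    obtain ⟨⟨h1, h2⟩, ⟨h3, h4⟩, h5⟩ := h
    refine ⟨⟨?_, ?_⟩, D, n, rfl, by omega, h5⟩
    · exact Nat.one_le_iff_ne_zero.2 (mul_ne_zero (by omega) (pow_ne_zero 3 (by omega)))
    · exact (Nat.le_div_iff_mul_le (by positivity)).1 h4
  · rintro ⟨n, D⟩ h ⟨n', D'⟩ h' he
    simp only [mem_sigma, mem_Icc, mem_filter] at h h' he
    obtain ⟨h6, h7⟩ := cf_unique (hP D h.2.2).1 (hP D' h'.2.2).1 (by omega) (by omega)
      (hP D h.2.2).2 (hP D' h'.2.2).2 he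
    subst h6 h7
    rfl
  · intro N h
    simp only [mem_Icc, mem_filter] at h
    obtain ⟨⟨h1, h2⟩, D, n, e1, e2, e3⟩ := h
    have hn : 1 ≤ n := Nat.one_le_iff_ne_zero.2 e2
    have hD : 1 ≤ D := Nat.one_le_iff_ne_zero.2 (hP D e3).1
    have e4 : n ≤ n ^ 3 := Nat.le_self_pow (by norm_num) n
    have e5 : 0 < n ^ 3 := by positivity
    refine ⟨⟨n, D⟩, ?_, e1.symm⟩
    simp only [mem_sigma, mem_Icc, mem_filter]
    refine ⟨⟨hn, ?_⟩, ⟨hD, ?_⟩, e3⟩
    · nlinarith
    · rw [Nat.le_div_iff_mul_le e5, ← e1]; exact h2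

theorem cnt_le (P : ℕ → Prop) (X : ℕ) : cnt P X ≤ X := by
  unfold cnt
  refine (card_filter_le _ _).trans ?_
  simp

theorem cnt_mono {P Q : ℕ → Prop} (h : ∀ D, P D → Q D) (X : ℕ) : cnt P X ≤ cnt Q X :=
  card_le_card (fun D hD => by
    simp only [mem_filter] at hD ⊢
    exact ⟨hD.1, h D hD.2⟩)

/-- The proportion among all numbers is the proportion among the cube-free numbers. -/
theorem dens {P Q : ℕ → Prop} (hPQ : ∀ D, P D → Q D)
    (hQ : ∀ D, Q D → D ≠ 0 ∧ ∀ p : ℕ, p.Prime → ¬ p ^ 3 ∣ D) {c : ℝ}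
    (hlow : ∃ c0 : ℝ, 0 < c0 ∧ ∃ X0 : ℕ, ∀ X : ℕ, X0 ≤ X →
      c0 * X / Real.sqrt (Real.log X) ≤ (cnt Q X : ℝ))
    (hlim : Tendsto (fun X : ℕ => (cnt P X : ℝ) / (cnt Q X : ℝ)) atTop (nhds c)) :
    Tendsto (fun X : ℕ => (cnt (Ext P) X : ℝ) / (cnt (Ext Q) X : ℝ)) atTop (nhds c) := by
  have hc0 : 0 ≤ c := ge_of_tendsto' hlim (fun X => by positivity)
  have hc1 : c ≤ 1 := by
    refine le_of_tendsto' hlim (fun X => ?_)
    refine div_le_one_of_le₀ ?_ (by positivity)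
    exact_mod_cast cnt_mono hPQ X
  obtain ⟨c0, hc0', X0, hX0⟩ := hlow
  -- uniform estimate
  have hunif : ∀ ε : ℝ, 0 < ε → ∃ Y0 : ℕ, ∀ Y : ℕ,
      |(cnt P Y : ℝ) - c * cnt Q Y| ≤ ε * cnt Q Y + (if 1 ≤ Y then (Y0 : ℝ) else 0) := by
    intro ε hε
    obtain ⟨Y0, hY0⟩ := (Metric.tendsto_atTop.1 hlim) ε hε
    refine ⟨Y0, fun Y => ?_⟩
    have b0 : (0 : ℝ) ≤ cnt P Y := by positivity
    have b1 : (cnt P Y : ℝ) ≤ cnt Q Y := by exact_mod_cast cnt_mono hPQ Y
    have b2 : |(cnt P Y : ℝ) - c * cnt Q Y| ≤ cnt Q Y := by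
      rw [abs_le]
      constructor <;> nlinarith
    rcases le_or_gt Y0 Y with h | h
    · have h1 := hY0 Y h
      rw [Real.dist_eq] at h1
      rcases eq_or_ne (cnt Q Y) 0 with h0 | h0
      · rw [h0] at b2 ⊢
        have : (0 : ℝ) ≤ if 1 ≤ Y then (Y0 : ℝ) else 0 := by split_ifs <;> positivity
        simp only [Nat.cast_zero] at b2 ⊢
        linarith
      · have hq : (0 : ℝ) < cnt Q Y := by exact_mod_cast Nat.pos_of_ne_zero h0
        have h2 : (cnt P Y : ℝ) - c * cnt Q Y = ((cnt P Y : ℝ) / cnt Q Y - c) * cnt Q Y := by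
          field_simp
        rw [h2, abs_mul, abs_of_pos hq]
        have : (0 : ℝ) ≤ if 1 ≤ Y then (Y0 : ℝ) else 0 := by split_ifs <;> positivity
        nlinarith
    · rcases Nat.eq_zero_or_pos Y with h0 | h0
      · subst h0
        have e1 : cnt Q 0 = 0 := Nat.le_zero.1 (cnt_le Q 0)
        rw [e1] at b2
        rw [e1]
        simpa using b2
      · rw [if_pos (by omega)]
        have b3 : (cnt Q Y : ℝ) ≤ Y0 := by
          have := cnt_le Q Y
          exact_mod_cast (by omega : cnt Q Y ≤ Y0)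
        have b4 : (0 : ℝ) ≤ ε * cnt Q Y := by positivity
        linarith
  have hsum : ∀ ε : ℝ, 0 < ε → ∃ Y0 : ℕ, ∀ X : ℕ,
      |(cnt (Ext P) X : ℝ) - c * cnt (Ext Q) X| ≤ ε * cnt (Ext Q) X + Y0 * Real.sqrt X := by
    intro ε hε
    obtain ⟨Y0, hY0⟩ := hunif ε hε
    refine ⟨Y0, fun X => ?_⟩
    rw [cnt_ext (fun D hD => hQ D (hPQ D hD)), cnt_ext hQ]
    push_cast
    have e1 : (∑ n ∈ Icc 1 X, (cnt P (X / n ^ 3) : ℝ)) - c * ∑ n ∈ Icc 1 X, (cnt Q (X / n ^ 3) : ℝ) =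
        ∑ n ∈ Icc 1 X, ((cnt P (X / n ^ 3) : ℝ) - c * cnt Q (X / n ^ 3)) := by
      rw [sum_sub_distrib, mul_sum]
    rw [e1]
    refine (abs_sum_le_sum_abs _ _).trans ?_
    refine (sum_le_sum fun n _ => hY0 (X / n ^ 3)).trans ?_
    rw [sum_add_distrib, mul_sum]
    gcongr
    rw [← sum_filter, sum_const, nsmul_eq_mul, mul_comm]
    refine mul_le_mul_of_nonneg_left ?_ (by positivity)
    have h1 : ((Icc 1 X).filter fun n => 1 ≤ X / n ^ 3).card ≤ Nat.sqrt X := by
      have h2 : ((Icc 1 X).filter fun n => 1 ≤ X / n ^ 3) ⊆ Icc 1 (Nat.sqrt X) := by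
        intro n hn
        simp only [mem_filter, mem_Icc] at hn ⊢
        refine ⟨hn.1.1, ?_⟩
        rw [Nat.le_sqrt]
        have h3 : 0 < n ^ 3 := by have := hn.1.1; positivity
        have h4 := (Nat.le_div_iff_mul_le h3).1 hn.2
        have h5 : n * n ≤ n ^ 3 := by
          have := hn.1.1
          nlinarith [Nat.mul_le_mul_left (n * n) this]
        omega
      refine (card_le_card h2).trans ?_
      simp
    have h6 : ((Nat.sqrt X : ℕ) : ℝ) ≤ Real.sqrt X := by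
      rw [Real.le_sqrt (by positivity) (by positivity)]
      exact_mod_cast Nat.sqrt_le' X
    exact (by exact_mod_cast h1 : (((Icc 1 X).filter fun n => 1 ≤ X / n ^ 3).card : ℝ) ≤
      (Nat.sqrt X : ℕ)).trans h6
  -- the main term dominates the square root
  have hQX : ∀ X : ℕ, cnt Q X ≤ cnt (Ext Q) X := fun X =>
    cnt_mono (fun D hD => ⟨D, 1, by ring, one_ne_zero, hD⟩) X
  have hsmall : Tendsto (fun X : ℕ => Real.sqrt X / (cnt (Ext Q) X : ℝ)) atTop (nhds 0) := by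
    have h1 : Tendsto (fun X : ℕ => Real.sqrt (Real.log X / X) / c0) atTop (nhds 0) := by
      have h2 : Tendsto (fun x : ℝ => Real.log x / x) atTop (nhds 0) := by
        simpa using Real.isLittleO_log_id_atTop.tendsto_div_nhds_zero
      have h3 := (h2.comp tendsto_natCast_atTop_atTop).sqrt.div_const c0
      simpa using h3
    refine squeeze_zero' (Eventually.of_forall fun X => by positivity) ?_ h1
    filter_upwards [eventually_ge_atTop (max X0 3)] with X hX
    have hX3 : 3 ≤ X := le_trans (le_max_right _ _) hX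
    have hXq : (3 : ℝ) ≤ X := by exact_mod_cast hX3
    have hlog : 0 < Real.log X := Real.log_pos (by linarith)
    have h2 := (hX0 X (le_trans (le_max_left _ _) hX)).trans
      (by exact_mod_cast hQX X : (cnt Q X : ℝ) ≤ cnt (Ext Q) X)
    have hs : 0 < Real.sqrt (Real.log X) := Real.sqrt_pos.2 hlog
    have h3 : 0 < c0 * X / Real.sqrt (Real.log X) := by positivity
    calc Real.sqrt X / (cnt (Ext Q) X : ℝ) ≤ Real.sqrt X / (c0 * X / Real.sqrt (Real.log X)) := by
          gcongr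
      _ = Real.sqrt (Real.log X / X) / c0 := by
          rw [Real.sqrt_div hlog.le]
          have h5 : Real.sqrt X * Real.sqrt X = X := Real.mul_self_sqrt (by positivity)
          have h6 : 0 < Real.sqrt X := Real.sqrt_pos.2 (by linarith)
          field_simp
          nlinarith
  rw [Metric.tendsto_nhds]
  intro ε hε
  obtain ⟨Y0, hY0⟩ := hsum (ε / 2) (by linarith)
  have h1 : Tendsto (fun X : ℕ => (Y0 : ℝ) * (Real.sqrt X / (cnt (Ext Q) X : ℝ))) atTop
      (nhds 0) := by simpa using hsmall.const_mul (Y0 : ℝ)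
  filter_upwards [(Metric.tendsto_nhds.1 h1) (ε / 2) (by linarith),
    eventually_ge_atTop (max X0 3)] with X hX hX'
  rw [Real.dist_eq] at hX ⊢
  have hX3 : 3 ≤ X := le_trans (le_max_right _ _) hX'
  have hXq : (3 : ℝ) ≤ X := by exact_mod_cast hX3
  have hlog : 0 < Real.log X := Real.log_pos (by linarith)
  have h2 := (hX0 X (le_trans (le_max_left _ _) hX')).trans
    (by exact_mod_cast hQX X : (cnt Q X : ℝ) ≤ cnt (Ext Q) X)
  have h3 : 0 < c0 * X / Real.sqrt (Real.log X) := by positivity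
  have hG : (0 : ℝ) < cnt (Ext Q) X := lt_of_lt_of_le h3 h2
  have h4 := hY0 X
  have h5 : (cnt (Ext P) X : ℝ) / cnt (Ext Q) X - c =
      ((cnt (Ext P) X : ℝ) - c * cnt (Ext Q) X) / cnt (Ext Q) X := by
    field_simp
  rw [h5, abs_div, abs_of_pos hG, div_lt_iff₀ hG]
  have h6 : (Y0 : ℝ) * (Real.sqrt X / (cnt (Ext Q) X : ℝ)) < ε / 2 := by
    have := lt_of_abs_lt hX
    simpa using this
  have h7 : (Y0 : ℝ) * Real.sqrt X < ε / 2 * cnt (Ext Q) X := by
    rw [← mul_div_assoc, div_lt_iff₀ hG] at h6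
    exact h6
  linarith

end Pool.Agent.R486.TC
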