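import Pool.Agent.R395.CT.Light

/-!
# The rational points of `y² = x³ - 432 D²` (copied from `Y703/CX/Rank.lean` without the analytic part)
-/

set_option autoImplicit false
set_option linter.unusedVariables false

open scoped Classical

namespace Pool.Agent.R486.TC

open Pool.Agent.Y703.CT

theorem WD_disc (D : ℤ) : (WD D).Δ = -27 * D ^ 4 := by
  unfold WD WeierstrassCurve.Δ WeierstrassCurve.b₂ WeierstrassCurve.b₄ WeierstrassCurve.b₆
    WeierstrassCurve.b₈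
  ring

theorem eqn_iff {K : Type} [CommRing K] (D : ℤ) (x y : K) :
    (((WD D).map (Int.castRingHom K)).toAffine.Equation x y) ↔ y ^ 2 + (D : K) * y = x ^ 3 := by
  rw [WeierstrassCurve.Affine.equation_iff]
  simp [WD, WeierstrassCurve.map]

theorem fin_pts {D : ℤ} (hD : D ≠ 0) (h : Finite (EQ (WD D)).toAffine.Point) :
    {q : ℚ × ℚ | q.2 ^ 2 = q.1 ^ 3 + ((0 : ℤ) : ℚ) * q.1 + ((-432 * D ^ 2 : ℤ) : ℚ)}.Finite := by
  have hDQ : (D : ℚ) ≠ 0 := by exact_mod_cast hD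
  -- the affine points of the curve
  have hS : {q : ℚ × ℚ | q.2 ^ 2 + (D : ℚ) * q.2 = q.1 ^ 3}.Finite := by
    have hns : ∀ x y : ℚ, y ^ 2 + (D : ℚ) * y = x ^ 3 → (EQ (WD D)).toAffine.Nonsingular x y := by
      intro x y hxy
      have he : (EQ (WD D)).toAffine.Equation x y := (eqn_iff D x y).2 hxy
      refine (WeierstrassCurve.Affine.equation_iff_nonsingular_of_Δ_ne_zero (W := (EQ (WD D)).toAffine) ?_).1 he
      have : (EQ (WD D)).Δ = ((WD D).Δ : ℚ) := by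
        rw [WeierstrassCurve.map_Δ]
        rfl
      show (EQ (WD D)).Δ ≠ 0
      rw [this, WD_disc]
      push_cast
      exact mul_ne_zero (by norm_num) (pow_ne_zero 4 hDQ)
    refine Set.finite_coe_iff.1 (Finite.of_injective (fun q : {q : ℚ × ℚ | q.2 ^ 2 + (D : ℚ) * q.2 = q.1 ^ 3} =>
      (WeierstrassCurve.Affine.Point.some q.1.1 q.1.2 (hns _ _ q.2) : (EQ (WD D)).toAffine.Point)) ?_)
    rintro ⟨⟨x, y⟩, h1⟩ ⟨⟨x', y'⟩, h2⟩ h3
    simp only [WeierstrassCurve.Affine.Point.some.injEq] at h3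
    obtain ⟨g1, g2⟩ := h3
    subst g1; subst g2; rfl
  -- the isogeny
  refine Set.Finite.of_finite_fibers (fun q : ℚ × ℚ =>
    (((q.1 ^ 3 - 1728 * (D : ℚ) ^ 2) / q.1 ^ 2) / 36, (q.2 * (q.1 ^ 3 + 3456 * (D : ℚ) ^ 2) / q.1 ^ 3 / 27 - 4 * D) / 8))
    ?_ ?_
  · refine hS.subset ?_
    rintro _ ⟨⟨x, y⟩, hq, rfl⟩
    have hq : y ^ 2 = x ^ 3 + ((0 : ℤ) : ℚ) * x + ((-432 * D ^ 2 : ℤ) : ℚ) := hq
    show ((y * (x ^ 3 + 3456 * (D : ℚ) ^ 2) / x ^ 3 / 27 - 4 * D) / 8) ^ 2 +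
      (D : ℚ) * ((y * (x ^ 3 + 3456 * (D : ℚ) ^ 2) / x ^ 3 / 27 - 4 * D) / 8) =
      (((x ^ 3 - 1728 * (D : ℚ) ^ 2) / x ^ 2) / 36) ^ 3
    push_cast at hq
    have hx : x ≠ 0 := by
      intro hx
      rw [hx] at hq
      have h1 : 0 < (D : ℚ) ^ 2 := by positivity
      nlinarith [sq_nonneg y]
    have hy : y ^ 2 = x ^ 3 - 432 * (D : ℚ) ^ 2 := by linear_combination hq
    have hXY : (y * (x ^ 3 + 3456 * (D : ℚ) ^ 2) / x ^ 3) ^ 2 =
        ((x ^ 3 - 1728 * (D : ℚ) ^ 2) / x ^ 2) ^ 3 + 11664 * (D : ℚ) ^ 2 := by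
      rw [div_pow, div_pow, mul_pow, hy]
      field_simp
      ring
    linear_combination hXY / 46656
  · rintro ⟨X, Y⟩ -
    -- the abscissae
    have hroots : {x : ℚ | x ^ 3 - 36 * X * x ^ 2 - 1728 * (D : ℚ) ^ 2 = 0}.Finite := by
      let P : Polynomial ℚ := Polynomial.X ^ 3 - Polynomial.C (36 * X) * Polynomial.X ^ 2 -
        Polynomial.C (1728 * (D : ℚ) ^ 2)
      have hP : P ≠ 0 := by
        intro h
        have h1 : P.eval 0 = 0 := by rw [h, Polynomial.eval_zero]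
        simp only [P, Polynomial.eval_sub, Polynomial.eval_pow, Polynomial.eval_X,
          Polynomial.eval_mul, Polynomial.eval_C] at h1
        have h2 : 0 < (D : ℚ) ^ 2 := by positivity
        nlinarith
      refine (P.roots.toFinset.finite_toSet).subset ?_
      intro x hx
      simp only [Finset.mem_coe, Multiset.mem_toFinset]
      rw [Polynomial.mem_roots hP, Polynomial.IsRoot.def]
      simp only [P, Polynomial.eval_sub, Polynomial.eval_pow, Polynomial.eval_X,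
          Polynomial.eval_mul, Polynomial.eval_C]
      exact hx
    refine (hroots.image fun x => (x, (27 * (8 * Y + 4 * D)) * x ^ 3 /
      (x ^ 3 + 3456 * (D : ℚ) ^ 2))).subset ?_
    rintro ⟨x, y⟩ ⟨hq, hf⟩
    have hq : y ^ 2 = x ^ 3 + ((0 : ℤ) : ℚ) * x + ((-432 * D ^ 2 : ℤ) : ℚ) := hq
    have hf : (((x ^ 3 - 1728 * (D : ℚ) ^ 2) / x ^ 2) / 36,
      (y * (x ^ 3 + 3456 * (D : ℚ) ^ 2) / x ^ 3 / 27 - 4 * D) / 8) = (X, Y) := hf
    rw [Prod.mk.injEq] at hf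
    obtain ⟨f1, f2⟩ := hf
    push_cast at hq
    have hD2 : 0 < (D : ℚ) ^ 2 := by positivity
    have hx : x ≠ 0 := by
      intro hx
      rw [hx] at hq
      nlinarith [sq_nonneg y]
    have hne : x ^ 3 + 3456 * (D : ℚ) ^ 2 ≠ 0 := by
      intro h
      have : y ^ 2 = -3888 * (D : ℚ) ^ 2 := by linear_combination hq + h
      nlinarith [sq_nonneg y]
    refine ⟨x, ?_, ?_⟩
    · show x ^ 3 - 36 * X * x ^ 2 - 1728 * (D : ℚ) ^ 2 = 0
      rw [← f1]
      field_simp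
      ring
    · rw [Prod.mk.injEq]
      refine ⟨rfl, ?_⟩
      rw [← f2]
      field_simp
      ring


theorem fin_of {D : ℕ} (hC : Cls D) (hN : NoSplit D) :
    {q : ℚ × ℚ | q.2 ^ 2 = q.1 ^ 3 + ((0 : ℤ) : ℚ) * q.1 +
      ((-432 * (D : ℤ) ^ 2 : ℤ) : ℚ)}.Finite := by
  have hD0 : (D : ℤ) ≠ 0 := by exact_mod_cast hC.1.1
  exact fin_pts hD0 (Pool.Agent.R395.CT.triv3_of hC hN).1

end Pool.Agent.R486.TC
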