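import Mathlib

/-!
# Rational points on `X³ + Y³ = D`: finitely many implies torsion (helper486)
-/

set_option autoImplicit false

namespace Pool.Agent.R486.TC

/-- the difference of two cubes -/
lemma cube_diff {a c : ℤ} (ha : a ≠ 0) (hc : c ≠ 0) (h1 : a ≠ c) (h2 : a + c ≠ 0) :
    4 ≤ |a ^ 3 - c ^ 3| := by
  have key : 16 ≤ |a - c| * ((a - c) ^ 2 + 3 * (a + c) ^ 2) := by
    have hu : 1 ≤ |a - c| := Int.one_le_abs (sub_ne_zero.2 h1)
    have hv : 1 ≤ |a + c| := Int.one_le_abs h2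
    have e1 : (a - c) ^ 2 = |a - c| ^ 2 := (sq_abs _).symm
    have e2 : (a + c) ^ 2 = |a + c| ^ 2 := (sq_abs _).symm
    rw [e1, e2]
    rcases lt_or_ge (|a - c|) 3 with h | h
    · have h3 : |a - c| = 1 ∨ |a - c| = 2 := by omega
      rcases h3 with h3 | h3
      · have h4 : 3 ≤ |a + c| := by
          rcases abs_eq (by norm_num : (0:ℤ) ≤ 1) |>.1 h3 with h5 | h5
          · rw [le_abs]; by_contra hcon
            push Not at hcon
            omega
          · rw [le_abs]; by_contra hcon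
            push Not at hcon
            omega
        rw [h3]; nlinarith
      · have h4 : 2 ≤ |a + c| := by
          rcases abs_eq (by norm_num : (0:ℤ) ≤ 2) |>.1 h3 with h5 | h5
          · rw [le_abs]; by_contra hcon
            push Not at hcon
            omega
          · rw [le_abs]; by_contra hcon
            push Not at hcon
            omega
        rw [h3]; nlinarith
    · nlinarith [sq_nonneg (|a - c| - 3)]
  have e : 4 * |a ^ 3 - c ^ 3| = |a - c| * ((a - c) ^ 2 + 3 * (a + c) ^ 2) := by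
    have e1 : 4 * (a ^ 3 - c ^ 3) = (a - c) * ((a - c) ^ 2 + 3 * (a + c) ^ 2) := by ring
    have e2 : |4 * (a ^ 3 - c ^ 3)| = |(a - c) * ((a - c) ^ 2 + 3 * (a + c) ^ 2)| := by rw [e1]
    rw [abs_mul, abs_mul, abs_of_nonneg (by positivity : (0:ℤ) ≤ (a - c) ^ 2 + 3 * (a + c) ^ 2)]
      at e2
    simpa using e2
  omega

/-- the tangent step enlarges the denominator -/
lemma grow {D : ℕ} (hcf : ∀ p : ℕ, p.Prime → ¬ p ^ 3 ∣ D) (hD : 1 < D) {X Y : ℚ}
    (h : X ^ 3 + Y ^ 3 = D) (hne : X ≠ Y) :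
    ∃ X' Y' : ℚ, X' ^ 3 + Y' ^ 3 = D ∧ X' ≠ Y' ∧ X.den < X'.den := by
  have hD0 : (D : ℤ) ≠ 0 := by exact_mod_cast (by omega : D ≠ 0)
  obtain ⟨a, b, c, d, hX, hY, hb, hd, hab, hcd⟩ :
      ∃ (a b c d : ℤ), X = a / b ∧ Y = c / d ∧ b = X.den ∧ d = Y.den ∧ IsCoprime a b ∧
        IsCoprime c d := by
    refine ⟨X.num, X.den, Y.num, Y.den, (Rat.num_div_den X).symm, (Rat.num_div_den Y).symm, rfl,
      rfl, ?_, ?_⟩
    · rw [Int.isCoprime_iff_nat_coprime]; simpa using X.reduced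
    · rw [Int.isCoprime_iff_nat_coprime]; simpa using Y.reduced
  have hb0 : 0 < b := by rw [hb]; exact_mod_cast X.den_pos
  have hd0 : 0 < d := by rw [hd]; exact_mod_cast Y.den_pos
  have hb' : (b : ℚ) ≠ 0 := by exact_mod_cast hb0.ne'
  have hd' : (d : ℚ) ≠ 0 := by exact_mod_cast hd0.ne'
  have e1 : a ^ 3 * d ^ 3 + c ^ 3 * b ^ 3 = D * (b ^ 3 * d ^ 3) := by
    have : ((a ^ 3 * d ^ 3 + c ^ 3 * b ^ 3 : ℤ) : ℚ) = ((D * (b ^ 3 * d ^ 3) : ℤ) : ℚ) := by
      push_cast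
      rw [← h, hX, hY]
      field_simp
    exact_mod_cast this
  have hbd : b ∣ d := by
    have h1 : b ^ 3 ∣ a ^ 3 * d ^ 3 := by
      refine ⟨D * d ^ 3 - c ^ 3, ?_⟩
      linear_combination e1
    have h2 : b ^ 3 ∣ d ^ 3 := (IsCoprime.pow hab.symm).dvd_of_dvd_mul_left h1
    exact (Int.pow_dvd_pow_iff (by norm_num)).1 h2
  have hdb : d ∣ b := by
    have h1 : d ^ 3 ∣ c ^ 3 * b ^ 3 := by
      refine ⟨D * b ^ 3 - a ^ 3, ?_⟩
      linear_combination e1
    have h2 : d ^ 3 ∣ b ^ 3 := (IsCoprime.pow hcd.symm).dvd_of_dvd_mul_left h1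
    exact (Int.pow_dvd_pow_iff (by norm_num)).1 h2
  have hbd' : d = b := Int.dvd_antisymm hd0.le hb0.le hdb hbd
  subst hbd'
  have e2 : a ^ 3 + c ^ 3 = D * d ^ 3 := by
    have h3 : d ^ 3 * (a ^ 3 + c ^ 3) = d ^ 3 * (D * d ^ 3) := by linear_combination e1
    exact mul_left_cancel₀ (pow_ne_zero 3 hd0.ne') h3
  -- coprimality of `a` and `c`
  have hac : IsCoprime a c := by
    rw [Int.isCoprime_iff_gcd_eq_one]
    by_contra hg
    obtain ⟨p, hp, hpd⟩ := Nat.exists_prime_and_dvd hg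
    have hpa : (p : ℤ) ∣ a := (Int.natCast_dvd_natCast.2 hpd).trans (Int.gcd_dvd_left _ _)
    have hpc : (p : ℤ) ∣ c := (Int.natCast_dvd_natCast.2 hpd).trans (Int.gcd_dvd_right _ _)
    have hpp : Prime (p : ℤ) := Nat.prime_iff_prime_int.1 hp
    have h4 : (p : ℤ) ^ 3 ∣ D * d ^ 3 := by
      rw [← e2]
      exact dvd_add (pow_dvd_pow_of_dvd hpa 3) (pow_dvd_pow_of_dvd hpc 3)
    have h5 : IsCoprime ((p : ℤ) ^ 3) (d ^ 3) := by
      refine IsCoprime.pow ?_
      exact hab.of_isCoprime_of_dvd_left hpa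
    have h6 : (p : ℤ) ^ 3 ∣ D := h5.dvd_of_dvd_mul_right h4
    exact hcf p hp (by exact_mod_cast h6)
  have hca : IsCoprime c d := hcd
  have hunit : ∀ x : ℤ, (D : ℤ) * d ^ 3 = x → 1 < x := by
    intro x hx
    have h1 : (1 : ℤ) < D := by exact_mod_cast hD
    have h2 : (1 : ℤ) ≤ d ^ 3 := by
      have : (0 : ℤ) < d ^ 3 := by positivity
      omega
    nlinarith
  have ha0 : a ≠ 0 := by
    intro h0
    have h1 : c = 1 ∨ c = -1 := by
      rw [h0, isCoprime_zero_left] at hac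
      exact Int.isUnit_iff.1 hac
    have h2 := hunit _ e2.symm
    rw [h0] at h2
    rcases h1 with h1 | h1 <;> rw [h1] at h2 <;> norm_num at h2
  have hc0 : c ≠ 0 := by
    intro h0
    have h1 : a = 1 ∨ a = -1 := by
      rw [h0, isCoprime_zero_right] at hac
      exact Int.isUnit_iff.1 hac
    have h2 := hunit _ e2.symm
    rw [h0] at h2
    rcases h1 with h1 | h1 <;> rw [h1] at h2 <;> norm_num at h2
  have hsum : a + c ≠ 0 := by
    intro h0
    have h1 : c = -a := by omega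
    have h2 := hunit _ e2.symm
    rw [h1] at h2
    have : a ^ 3 + (-a) ^ 3 = 0 := by ring
    omega
  have hane : a ≠ c := by
    intro h0
    exact hne (by rw [hX, hY, h0])
  have hdiff := cube_diff ha0 hc0 hane hsum
  have hM0 : d * (a ^ 3 - c ^ 3) ≠ 0 := by
    refine mul_ne_zero hd0.ne' ?_
    intro h0
    rw [h0] at hdiff
    norm_num at hdiff
  have hdq : (a : ℚ) ^ 3 - c ^ 3 ≠ 0 := by
    have : ((a ^ 3 - c ^ 3 : ℤ) : ℚ) ≠ 0 := by
      exact_mod_cast right_ne_zero_of_mul hM0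
    push_cast at this
    exact this
  -- the new point
  set X' : ℚ := (a * (a ^ 3 + 2 * c ^ 3) : ℤ) / (d * (a ^ 3 - c ^ 3) : ℤ) with hX'
  set Y' : ℚ := (-(c * (2 * a ^ 3 + c ^ 3)) : ℤ) / (d * (a ^ 3 - c ^ 3) : ℤ) with hY'
  have hpt : X' ^ 3 + Y' ^ 3 = D := by
    have e2' : (a : ℚ) ^ 3 + (c : ℚ) ^ 3 = D * (d : ℚ) ^ 3 := by exact_mod_cast e2
    have e3 : (D : ℚ) = ((a : ℚ) ^ 3 + (c : ℚ) ^ 3) / (d : ℚ) ^ 3 := by
      rw [e2']; field_simp
    rw [e3, hX', hY']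
    push_cast
    field_simp
    ring
  -- the greatest common divisor of numerator and denominator divides `3`
  have hbez : ∃ u v : ℤ, u * (a * (a ^ 3 + 2 * c ^ 3)) + v * (d * (a ^ 3 - c ^ 3)) = 3 := by
    have c1 : IsCoprime (a * (a ^ 3 + 2 * c ^ 3)) d := by
      refine IsCoprime.mul_left hab ?_
      have h1 : a ^ 3 + 2 * c ^ 3 = c ^ 3 + d * (D * d ^ 2) := by linear_combination e2
      rw [h1]
      exact (IsCoprime.pow_left hca).add_mul_left_left _
    have c2 : IsCoprime a (a ^ 3 - c ^ 3) := by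
      have h1 : a ^ 3 - c ^ 3 = -(c ^ 3) + a * a ^ 2 := by ring
      rw [h1]
      exact ((IsCoprime.pow_right hac).neg_right).add_mul_left_right _
    have c3 : IsCoprime (c ^ 3) (a ^ 3 - c ^ 3) := by
      have h1 : a ^ 3 - c ^ 3 = a ^ 3 + c ^ 3 * (-1) := by ring
      rw [h1]
      exact (IsCoprime.pow hac.symm).add_mul_left_right _
    obtain ⟨α, β, h1⟩ := c1
    obtain ⟨p, q, h2⟩ := c2
    obtain ⟨s, t, h3⟩ := c3
    have h4 : s * (a ^ 3 + 2 * c ^ 3) + (3 * t - s) * (a ^ 3 - c ^ 3) = 3 := by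
      linear_combination 3 * h3
    refine ⟨α * (s * p * (a * (a ^ 3 + 2 * c ^ 3)) + (s * q * (a ^ 3 + 2 * c ^ 3) +
        (3 * t - s) * p * a + (3 * t - s) * q * (a ^ 3 - c ^ 3)) * (a ^ 3 - c ^ 3)) +
        β * d * (s * p),
      β * (s * q * (a ^ 3 + 2 * c ^ 3) +
        (3 * t - s) * p * a + (3 * t - s) * q * (a ^ 3 - c ^ 3)), ?_⟩
    have h5 : (s * (a ^ 3 + 2 * c ^ 3) + (3 * t - s) * (a ^ 3 - c ^ 3)) *
        (p * a + q * (a ^ 3 - c ^ 3)) * (α * (a * (a ^ 3 + 2 * c ^ 3)) + β * d) = 3 := by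
      rw [h4, h2, h1]; norm_num
    linear_combination h5
  have hden : d * |a ^ 3 - c ^ 3| ≤ 3 * X'.den := by
    obtain ⟨u, v, huv⟩ := hbez
    have hn : (X'.num : ℚ) / X'.den = X' := Rat.num_div_den X'
    have hde : (X'.den : ℚ) ≠ 0 := by exact_mod_cast X'.den_pos.ne'
    have hMq : ((d * (a ^ 3 - c ^ 3) : ℤ) : ℚ) ≠ 0 := by exact_mod_cast hM0
    have h6 : (X'.num : ℤ) * (d * (a ^ 3 - c ^ 3)) = (a * (a ^ 3 + 2 * c ^ 3)) * X'.den := by
      have h7 : (X'.num : ℚ) * ((d * (a ^ 3 - c ^ 3) : ℤ) : ℚ) =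
          ((a * (a ^ 3 + 2 * c ^ 3) : ℤ) : ℚ) * X'.den := by
        rw [hX'] at hn
        rw [div_eq_div_iff hde hMq] at hn
        exact hn
      exact_mod_cast h7
    have h8 : (d * (a ^ 3 - c ^ 3)) ∣ 3 * (X'.den : ℤ) := by
      refine ⟨u * X'.num + v * X'.den, ?_⟩
      rw [← huv]
      linear_combination (-u) * h6
    have h9 : |d * (a ^ 3 - c ^ 3)| ≤ 3 * (X'.den : ℤ) := by
      have hpos : (0 : ℤ) < 3 * (X'.den : ℤ) := by
        have : (0 : ℤ) < X'.den := by exact_mod_cast X'.den_pos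
        omega
      have := Int.le_of_dvd hpos ((abs_dvd _ _).2 h8)
      exact this
    rwa [abs_mul, abs_of_pos hd0] at h9
  have hlt : (X.den : ℤ) < X'.den := by
    rw [← hb]
    nlinarith
  have hlt' : X.den < X'.den := by exact_mod_cast hlt
  refine ⟨X', Y', hpt, ?_, hlt'⟩
  intro heq
  rw [← heq] at hpt
  -- `2 X' ^ 3 = D` forces the denominator to be one
  have h10 : (2 : ℤ) * X'.num ^ 3 = D * (X'.den : ℤ) ^ 3 := by
    have hde : (X'.den : ℚ) ≠ 0 := by exact_mod_cast X'.den_pos.ne'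
    have h11 : (2 : ℚ) * (X'.num : ℚ) ^ 3 = D * (X'.den : ℚ) ^ 3 := by
      have hn : (X'.num : ℚ) / X'.den = X' := Rat.num_div_den X'
      rw [← hpt, ← hn]
      field_simp
      simp only [Rat.num_div_den]
      ring
    exact_mod_cast h11
  have hcop : IsCoprime ((X'.den : ℤ) ^ 3) (X'.num ^ 3) := by
    refine IsCoprime.pow ?_
    rw [Int.isCoprime_iff_nat_coprime]
    simpa using X'.reduced.symm
  have h12 : (X'.den : ℤ) ^ 3 ∣ 2 := by
    exact hcop.dvd_of_dvd_mul_right ⟨D, by linear_combination h10⟩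
  have h13 : (X'.den : ℤ) ^ 3 ≤ 2 := Int.le_of_dvd (by norm_num) h12
  have h14 : (2 : ℤ) ≤ X'.den := by
    have h15 : 1 ≤ X.den := X.den_pos
    have : 2 ≤ X'.den := by omega
    exact_mod_cast this
  have h16 : (2 : ℤ) ^ 3 ≤ (X'.den : ℤ) ^ 3 := by gcongr
  norm_num at h16
  omega

/-- If `y² = x³ - 432 D²` has finitely many rational points, `D > 1` cube-free, then every rational
point of `X³ + Y³ = D` has equal coordinates. -/
theorem diag_of_finite {D : ℕ} (hcf : ∀ p : ℕ, p.Prime → ¬ p ^ 3 ∣ D) (hD : 1 < D)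
    (hfin : {q : ℚ × ℚ | q.2 ^ 2 = q.1 ^ 3 + ((0 : ℤ) : ℚ) * q.1 +
      ((-432 * (D : ℤ) ^ 2 : ℤ) : ℚ)}.Finite) {X Y : ℚ} (h : X ^ 3 + Y ^ 3 = D) : X = Y := by
  by_contra hne
  have hDq : (D : ℚ) ≠ 0 := by exact_mod_cast (by omega : D ≠ 0)
  set P : Set (ℚ × ℚ) := {q | q.1 ^ 3 + q.2 ^ 3 = D ∧ q.1 ≠ q.2} with hP
  have hsum : ∀ q ∈ P, q.1 + q.2 ≠ 0 := by
    rintro ⟨x, y⟩ ⟨h1, -⟩ h0
    have h2 : y = -x := by simp only at h0; linarith
    simp only [h2] at h1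
    apply hDq
    rw [← h1]; ring
  have hPfin : P.Finite := by
    set φ : ℚ × ℚ → ℚ × ℚ := fun q =>
      (12 * D / (q.1 + q.2), 36 * D * (q.1 - q.2) / (q.1 + q.2)) with hφ
    refine Set.Finite.of_finite_image (f := φ) (hfin.subset ?_) ?_
    · rintro _ ⟨⟨x, y⟩, hq, rfl⟩
      have h0 := hsum _ hq
      obtain ⟨h1, -⟩ := hq
      simp only at h0 h1
      simp only [hφ, Set.mem_ofPred_eq]
      push_cast
      rw [← h1]
      field_simp
      ring
    · rintro ⟨x, y⟩ hq ⟨x', y'⟩ hq' he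
      have h0 := hsum _ hq
      have h0' := hsum _ hq'
      simp only at h0 h0'
      simp only [hφ, Prod.mk.injEq] at he
      obtain ⟨e1, e2⟩ := he
      rw [div_eq_div_iff h0 h0'] at e1
      have e3 : x' + y' = x + y := by
        have : (12 * (D : ℚ)) * (x' + y') = (12 * D) * (x + y) := e1
        exact mul_left_cancel₀ (by positivity) this
      rw [e3] at e2
      rw [div_left_inj' h0] at e2
      have e4 : x - y = x' - y' := mul_left_cancel₀ (by positivity) e2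
      simp only [Prod.mk.injEq]
      constructor <;> linarith
  have hunb : ∀ n : ℕ, ∃ q ∈ P, n ≤ q.1.den := by
    intro n
    induction n with
    | zero => exact ⟨(X, Y), ⟨h, hne⟩, Nat.zero_le _⟩
    | succ n ih =>
      obtain ⟨q, ⟨hq1, hq2⟩, hq3⟩ := ih
      obtain ⟨X', Y', h1, h2, h3⟩ := grow hcf hD hq1 hq2
      exact ⟨(X', Y'), ⟨h1, h2⟩, by simp only; omega⟩
  obtain ⟨B, hB⟩ := (hPfin.image fun q => q.1.den).bddAbove
  obtain ⟨q, hq, hq'⟩ := hunb (B + 1)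
  have := hB ⟨q, hq, rfl⟩
  simp only at this
  omega

end Pool.Agent.R486.TC
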